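import Mathlib

/-! Definitions for the hand-in on orbits of generalized 3x+1 permutations (Venturini maps). -/

namespace Pool.Agent.H72.VPerm

/-- `T` is a permutation of `ℤ` of the form `T(x) = (t_r x - u_r)/p` for `x ≡ r (mod p)`, with
positive integers `t_r`, integers `u_r ≡ r t_r (mod p)`, `t_0 ⋯ t_{p-1} > p^p` and
`gcd(t_0 ⋯ t_{p-1}, p) = 1`. -/
structure VenturiniPerm (p : ℕ) (t u : ℕ → ℤ) (T : Equiv.Perm ℤ) : Prop where
  one_lt : 1 < p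
  tpos : ∀ r < p, 0 < t r
  cong : ∀ r < p, u r ≡ (r : ℤ) * t r [ZMOD (p : ℤ)]
  eqn : ∀ x : ℤ, (p : ℤ) * T x = t (x % (p : ℤ)).toNat * x - u (x % (p : ℤ)).toNat
  prod : (p : ℤ) ^ p < ∏ r ∈ Finset.range p, t r
  cop : Int.gcd (∏ r ∈ Finset.range p, t r) (p : ℤ) = 1

/-- The orbit of `x`, under all integer powers of `T`. -/
def orbit (T : Equiv.Perm ℤ) (x : ℤ) : Set ℤ := {y | ∃ i : ℤ, (T ^ i) x = y}

/-- The times `i ∈ ℤ` at which the orbit of `x` comes back to `[-N, N]` from outside `[-M, M]`: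
`T^i x` is in `[-N, N]`, some earlier `T^j x` is outside `[-M, M]`, and no `T^l x` with
`j < l < i` is in `[-N, N]`. -/
def returns (T : Equiv.Perm ℤ) (x : ℤ) (N : ℕ) (M : ℝ) : Set ℤ :=
  {i | |(T ^ i) x| ≤ (N : ℤ) ∧ ∃ j < i, M < ((|(T ^ j) x| : ℤ) : ℝ) ∧
    ∀ l, j < l → l < i → (N : ℤ) < |(T ^ l) x|}

end Pool.Agent.H72.VPerm
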