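import Pool.Agent.H72.VPermProof

/-!
# Orbits of generalized 3x+1 permutations: consequences for orbits
-/

namespace Pool.Agent.H72.VPerm

open Finset

theorem pow_ge (N : ℕ) (κ : ℝ) (hκ : 0 ≤ κ) : (N : ℝ) ≤ (N : ℝ) ^ (1 + κ) := by
  rcases Nat.eq_zero_or_pos N with h | h
  · subst h
    have : (0 : ℝ) ≤ (((0 : ℕ) : ℝ)) ^ (1 + κ) := by positivity
    simpa using this
  · have hN1 : (1 : ℝ) ≤ N := by exact_mod_cast h
    have h4 : (N : ℝ) ^ (1 : ℝ) ≤ (N : ℝ) ^ (1 + κ) :=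
      Real.rpow_le_rpow_of_exponent_le hN1 (by linarith)
    rwa [Real.rpow_one] at h4

theorem mem_Ex_iff (T : Equiv.Perm ℤ) (κ : ℝ) (k N : ℕ) (y : ℤ) (hy : |y| ≤ (N : ℤ)) :
    y ∉ Ex T κ k N ↔ ((N : ℝ) ^ (1 + κ) < ((|(T ^ k) y| : ℤ) : ℝ) ∧
      (N : ℝ) ^ (1 + κ) < ((|(T ^ k)⁻¹ y| : ℤ) : ℝ)) := by
  have hyN : y ∈ Finset.Icc (-(N : ℤ)) N := by
    rw [Finset.mem_Icc]; exact abs_le.mp hy
  unfold Ex
  rw [Finset.mem_filter, not_and, not_not]
  exact ⟨fun h => h hyN, fun h _ => h⟩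

theorem kpos (T : Equiv.Perm ℤ) (κ : ℝ) (hκ : 0 ≤ κ) (k N : ℕ) (y : ℤ) (hy : |y| ≤ (N : ℤ))
    (hE : y ∉ Ex T κ k N) : 0 < k := by
  rcases Nat.eq_zero_or_pos k with hk | hk
  · exfalso
    subst hk
    have h1 := ((mem_Ex_iff T κ 0 N y hy).mp hE).1
    rw [pow_zero, Equiv.Perm.one_apply] at h1
    have h3 : ((|y| : ℤ) : ℝ) ≤ N := by exact_mod_cast hy
    have := pow_ge N κ hκ
    linarith
  · exact hk

theorem visits_le (T : Equiv.Perm ℤ) (κ : ℝ) (hκ : 0 ≤ κ) (k N : ℕ) (x : ℤ)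
    (hx : (orbit T x).Infinite) :
    (returns T x N ((N : ℝ) ^ (1 + κ))).Finite ∧
    (orbit T x ∩ {y | |y| ≤ (N : ℤ)}).ncard
      ≤ k * (returns T x N ((N : ℝ) ^ (1 + κ))).ncard + (Ex T κ k N).card := by
  have hinj := inj_of_infinite T x hx
  set f : ℤ → ℤ := fun i => (T ^ i) x with hf
  set A : Set ℤ := {i | |f i| ≤ (N : ℤ)} with hA
  have hAfin : A.Finite := by
    have h1 : A = f ⁻¹' (Set.Icc (-(N : ℤ)) N) := by
      ext i
      simp only [hA, Set.mem_ofPred_eq, Set.mem_preimage, Set.mem_Icc, abs_le]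
    rw [h1]
    exact (Set.finite_Icc _ _).preimage hinj.injOn
  have hRsub : returns T x N ((N : ℝ) ^ (1 + κ)) ⊆ A := fun i hi => hi.1
  have hRfin := hAfin.subset hRsub
  refine ⟨hRfin, ?_⟩
  have himg : orbit T x ∩ {y | |y| ≤ (N : ℤ)} = f '' A := by
    ext y
    constructor
    · rintro ⟨⟨i, hi⟩, hy⟩
      refine ⟨i, ?_, hi⟩
      simp only [hA, Set.mem_ofPred_eq, hf]
      rw [hi]; exact hy
    · rintro ⟨i, hi, rfl⟩
      exact ⟨⟨i, rfl⟩, hi⟩
  rw [himg, Set.ncard_image_of_injective _ hinj]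
  set R := hRfin.toFinset with hR
  set A' := hAfin.toFinset with hA'
  have hcov : A' ⊆ R.biUnion (fun r => Finset.Ico r (r + k)) ∪ {i ∈ A' | f i ∈ Ex T κ k N} := by
    intro i hi'
    have hi : |f i| ≤ (N : ℤ) := (hAfin.mem_toFinset.mp hi')
    rw [Finset.mem_union]
    by_cases hE : f i ∈ Ex T κ k N
    · exact Or.inr (Finset.mem_filter.mpr ⟨hi', hE⟩)
    · left
      have hk := kpos T κ hκ k N (f i) hi hE
      have hbig := (mem_Ex_iff T κ k N (f i) hi).mp hE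
      have hback : (T ^ k)⁻¹ (f i) = f (i - k) := by
        simp only [hf]
        rw [← Equiv.Perm.mul_apply, ← zpow_natCast, ← zpow_neg, ← zpow_add]
        congr 2
        ring
      rw [hback] at hbig
      -- the first time after `i - k` in `[-N, N]`
      have hex : ∃ n : ℕ, |f (i - k + 1 + n)| ≤ (N : ℤ) ∧ i - k + 1 + n ≤ i := by
        refine ⟨k - 1, ?_, ?_⟩
        · have e : i - k + 1 + ((k - 1 : ℕ) : ℤ) = i := by
            push_cast [Nat.cast_sub hk]; ring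
          rw [e]; exact hi
        · push_cast [Nat.cast_sub hk]; linarith
      classical
      set n0 := Nat.find hex with hn0
      have hspec := Nat.find_spec hex
      rw [← hn0] at hspec
      rw [Finset.mem_biUnion]
      refine ⟨i - k + 1 + n0, ?_, ?_⟩
      · rw [hR, Set.Finite.mem_toFinset]
        refine ⟨hspec.1, i - k, by omega, hbig.2, ?_⟩
        intro l hl1 hl2
        have hmin := Nat.find_min hex (m := (l - (i - k + 1)).toNat) (by
          rw [← hn0]; omega)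
        have e : i - (k : ℤ) + 1 + ((l - (i - k + 1)).toNat : ℤ) = l := by omega
        rw [e] at hmin
        by_contra hcon
        exact hmin ⟨not_lt.mp hcon, by omega⟩
      · rw [Finset.mem_Ico]
        constructor
        · exact hspec.2
        · omega
  have h1 := (card_le_card hcov).trans (card_union_le _ _)
  have h2 : (R.biUnion (fun r => Finset.Ico r (r + (k : ℤ)))).card ≤ R.card * k := by
    refine card_biUnion_le_card_mul _ _ _ fun r _ => ?_
    rw [Int.card_Ico]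
    simp
  have h3 : ({i ∈ A' | f i ∈ Ex T κ k N}).card ≤ (Ex T κ k N).card := by
    refine card_le_card_of_injOn f ?_ hinj.injOn
    intro i hi
    exact (Finset.mem_filter.mp hi).2
  rw [Set.ncard_eq_toFinset_card A hAfin, Set.ncard_eq_toFinset_card _ hRfin]
  show A'.card ≤ k * R.card + (Ex T κ k N).card
  have h4 : R.card * k = k * R.card := mul_comm _ _
  omega

/-- Invariant sets inside `[-N^(1+κ), N^(1+κ)]`. -/
theorem invariant_le (T : Equiv.Perm ℤ) (κ : ℝ) (k N : ℕ) (F : Set ℤ)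
    (hF : ∀ y, y ∈ F → T y ∈ F) (hFM : ∀ y ∈ F, ((|y| : ℤ) : ℝ) ≤ (N : ℝ) ^ (1 + κ)) :
    (F ∩ {y | |y| ≤ (N : ℤ)}).ncard ≤ (Ex T κ k N).card := by
  have hit : ∀ k : ℕ, ∀ y ∈ F, (T ^ k) y ∈ F := by
    intro k
    induction k with
    | zero => intro y hy; simpa using hy
    | succ k ih =>
      intro y hy
      rw [pow_succ, Equiv.Perm.mul_apply]
      exact ih _ (hF y hy)
  have hsub : F ∩ {y | |y| ≤ (N : ℤ)} ⊆ (Ex T κ k N : Set ℤ) := by
    rintro y ⟨hy, hyN⟩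
    by_contra hcon
    have hbig := ((mem_Ex_iff T κ k N y hyN).mp hcon).1
    have := hFM _ (hit k y hy)
    linarith
  have h1 := Set.ncard_le_ncard hsub (Finset.finite_toSet _)
  rwa [Set.ncard_coe_finset] at h1

/-- Windows of time during which the orbit stays inside `[-N^(1+κ), N^(1+κ)]`. -/
theorem window_le (T : Equiv.Perm ℤ) (κ : ℝ) (k N : ℕ) (x a b : ℤ)
    (hw : ∀ i, a ≤ i → i ≤ b → ((|(T ^ i) x| : ℤ) : ℝ) ≤ (N : ℝ) ^ (1 + κ)) :
    ({y | |y| ≤ (N : ℤ) ∧ ∃ i, a ≤ i ∧ i ≤ b ∧ (T ^ i) x = y}).ncard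
      ≤ k + (Ex T κ k N).card := by
  set f : ℤ → ℤ := fun i => (T ^ i) x with hf
  have hsub : {y | |y| ≤ (N : ℤ) ∧ ∃ i, a ≤ i ∧ i ≤ b ∧ (T ^ i) x = y} ⊆
      (((Finset.Ico a (a + k)).image f ∪ Ex T κ k N : Finset ℤ) : Set ℤ) := by
    rintro y ⟨hy, i, hia, hib, rfl⟩
    rw [Finset.mem_coe, Finset.mem_union]
    by_cases hE : (T ^ i) x ∈ Ex T κ k N
    · exact Or.inr hE
    · left
      have hbig := (mem_Ex_iff T κ k N _ hy).mp hE
      have hback : (T ^ k)⁻¹ ((T ^ i) x) = (T ^ (i - k)) x := by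
        rw [← Equiv.Perm.mul_apply, ← zpow_natCast, ← zpow_neg, ← zpow_add]
        congr 2
        ring
      rw [Finset.mem_image]
      refine ⟨i, ?_, rfl⟩
      rw [Finset.mem_Ico]
      refine ⟨hia, ?_⟩
      by_contra hcon
      push Not at hcon
      have h1 := hw (i - k) (by omega) (by omega)
      rw [hback] at hbig
      linarith [hbig.2]
  have h1 := Set.ncard_le_ncard hsub (Finset.finite_toSet _)
  rw [Set.ncard_coe_finset] at h1
  have h2 := card_union_le ((Finset.Ico a (a + k)).image f) (Ex T κ k N)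
  have h3 : ((Finset.Ico a (a + (k : ℤ))).image f).card ≤ k := by
    refine card_image_le.trans ?_
    rw [Int.card_Ico]
    simp
  omega

end Pool.Agent.H72.VPerm
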