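import Pool.Agent.H72.VPermDefs

/-!
# Orbits of generalized 3x+1 permutations: proofs
-/

namespace Pool.Agent.H72.VPerm

open Finset

/-- multiplier of the branch of `x` -/
def tt (p : ℕ) (t : ℕ → ℤ) (x : ℤ) : ℤ := t (x % (p : ℤ)).toNat

/-- product of the multipliers of the first `k` steps -/
def tau (p : ℕ) (t : ℕ → ℤ) (T : Equiv.Perm ℤ) : ℕ → ℤ → ℤ
  | 0, _ => 1
  | k + 1, x => tt p t x * tau p t T k (T x)

section
variable {p : ℕ} {t u : ℕ → ℤ} {T : Equiv.Perm ℤ} (h : VenturiniPerm p t u T)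
include h

theorem pposZ : (0 : ℤ) < p := by
  have := h.one_lt
  exact_mod_cast (by omega : 0 < p)

theorem ppos : 0 < p := by
  have := h.one_lt
  omega

theorem res_lt (x : ℤ) : (x % (p : ℤ)).toNat < p := by
  have h1 := Int.emod_lt_of_pos x (pposZ h)
  have h2 := Int.emod_nonneg x (pposZ h).ne'
  omega

theorem tt_pos (x : ℤ) : 0 < tt p t x := h.tpos _ (res_lt h x)

theorem tau_pos (k : ℕ) (x : ℤ) : 0 < tau p t T k x := by
  induction k generalizing x with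
  | zero => exact one_pos
  | succ k ih => exact mul_pos (tt_pos h x) (ih _)

omit h in
theorem tt_add (x z : ℤ) : tt p t (x + p * z) = tt p t x := by
  unfold tt
  rw [Int.add_mul_emod_self_left]

theorem T_add (x z : ℤ) : T (x + p * z) = T x + tt p t x * z := by
  have h1 := h.eqn (x + p * z)
  have h2 := h.eqn x
  rw [Int.add_mul_emod_self_left] at h1
  have h3 : (p : ℤ) * T (x + p * z) = p * (T x + tt p t x * z) := by
    unfold tt
    linear_combination h1 - h2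
  exact mul_left_cancel₀ (pposZ h).ne' h3

theorem tau_add (k : ℕ) (x z : ℤ) : tau p t T k (x + (p : ℤ) ^ k * z) = tau p t T k x := by
  induction k generalizing x z with
  | zero => rfl
  | succ k ih =>
    have e : x + (p : ℤ) ^ (k + 1) * z = x + p * ((p : ℤ) ^ k * z) := by ring
    unfold tau
    rw [e, tt_add, T_add h]
    have e2 : T x + tt p t x * ((p : ℤ) ^ k * z) = T x + (p : ℤ) ^ k * (tt p t x * z) := by ring
    rw [e2, ih]

theorem iter_add (k : ℕ) (x z : ℤ) :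
    (T ^ k) (x + (p : ℤ) ^ k * z) = (T ^ k) x + tau p t T k x * z := by
  induction k generalizing x z with
  | zero => simp [tau]
  | succ k ih =>
    have e : x + (p : ℤ) ^ (k + 1) * z = x + p * ((p : ℤ) ^ k * z) := by ring
    rw [pow_succ, Equiv.Perm.mul_apply, Equiv.Perm.mul_apply, e, T_add h]
    have e2 : T x + tt p t x * ((p : ℤ) ^ k * z) = T x + (p : ℤ) ^ k * (tt p t x * z) := by ring
    have h3 : tau p t T (k + 1) x = tt p t x * tau p t T k (T x) := rfl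
    rw [e2, ih, h3]
    ring

theorem tau_emod (k : ℕ) (x : ℤ) : tau p t T k (x % (p : ℤ) ^ k) = tau p t T k x := by
  have e : x = x % (p : ℤ) ^ k + (p : ℤ) ^ k * (x / (p : ℤ) ^ k) := (Int.emod_add_mul_ediv x _).symm
  conv_rhs => rw [e]
  rw [tau_add h]

/-- The bound for the additive error. -/
def UU (p : ℕ) (u : ℕ → ℤ) : ℤ := ∑ r ∈ range p, |u r|

omit h in
theorem UU_nonneg : 0 ≤ UU p u := sum_nonneg fun _ _ => abs_nonneg _

theorem u_le (x : ℤ) : |u (x % (p : ℤ)).toNat| ≤ UU p u :=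
  single_le_sum (f := fun r => |u r|) (fun _ _ => abs_nonneg _) (mem_range.mpr (res_lt h x))

theorem err (k : ℕ) (x : ℤ) :
    |(p : ℤ) ^ k * (T ^ k) x - tau p t T k x * x| ≤ UU p u * ((p : ℤ) ^ k - 1) * tau p t T k x := by
  induction k generalizing x with
  | zero => simp [tau]
  | succ k ih =>
    have h1 := ih (T x)
    have hp := pposZ h
    have hp2 : (2 : ℤ) ≤ p := by have := h.one_lt; exact_mod_cast this
    have htau := tau_pos h k (T x)
    have htt := tt_pos h x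
    have hU : 0 ≤ UU p u := UU_nonneg
    have hu := u_le h x
    have hpk : (1 : ℤ) ≤ (p : ℤ) ^ k := one_le_pow₀ (by linarith)
    have e : (p : ℤ) ^ (k + 1) * (T ^ (k + 1)) x - tau p t T (k + 1) x * x
        = p * ((p : ℤ) ^ k * (T ^ k) (T x) - tau p t T k (T x) * T x)
          - tau p t T k (T x) * u (x % (p : ℤ)).toNat := by
      have h2 := h.eqn x
      have h3 : tau p t T (k + 1) x = tt p t x * tau p t T k (T x) := rfl
      rw [pow_succ T, Equiv.Perm.mul_apply, h3, pow_succ (p : ℤ)]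
      unfold tt
      linear_combination (tau p t T k (T x)) * h2
    rw [e]
    have h4 : |p * ((p : ℤ) ^ k * (T ^ k) (T x) - tau p t T k (T x) * T x)
          - tau p t T k (T x) * u (x % (p : ℤ)).toNat|
        ≤ p * (UU p u * ((p : ℤ) ^ k - 1) * tau p t T k (T x)) + tau p t T k (T x) * UU p u := by
      refine (abs_sub _ _).trans ?_
      rw [abs_mul, abs_mul, abs_of_pos hp, abs_of_pos htau]
      exact add_le_add (mul_le_mul_of_nonneg_left h1 hp.le)
        (mul_le_mul_of_nonneg_left hu htau.le)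
    refine h4.trans ?_
    have h5 : p * (UU p u * ((p : ℤ) ^ k - 1) * tau p t T k (T x)) + tau p t T k (T x) * UU p u
        ≤ UU p u * ((p : ℤ) ^ (k + 1) - 1) * tau p t T k (T x) := by
      have e5 : UU p u * ((p : ℤ) ^ (k + 1) - 1) * tau p t T k (T x)
        - (p * (UU p u * ((p : ℤ) ^ k - 1) * tau p t T k (T x)) + tau p t T k (T x) * UU p u)
        = UU p u * tau p t T k (T x) * (p - 2) := by ring
      have : 0 ≤ UU p u * tau p t T k (T x) * (p - 2) :=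
        mul_nonneg (mul_nonneg hU htau.le) (by linarith)
      linarith
    refine h5.trans ?_
    have h6 : tau p t T k (T x) ≤ tau p t T (k + 1) x := by
      show tau p t T k (T x) ≤ tt p t x * tau p t T k (T x)
      nlinarith
    have h7 : 0 ≤ UU p u * ((p : ℤ) ^ (k + 1) - 1) := by
      have : (1 : ℤ) ≤ (p : ℤ) ^ (k + 1) := one_le_pow₀ (by linarith)
      exact mul_nonneg hU (by linarith)
    exact mul_le_mul_of_nonneg_left h6 h7

/-! ### The weights -/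

/-- The weight `√(p^k/τ_k)`. -/
noncomputable def w (p : ℕ) (t : ℕ → ℤ) (T : Equiv.Perm ℤ) (k : ℕ) (x : ℤ) : ℝ :=
  Real.sqrt ((p : ℝ) ^ k / (tau p t T k x : ℝ))

/-- The sum `∑_r √(p/t_r)`. -/
noncomputable def ss (p : ℕ) (t : ℕ → ℤ) : ℝ := ∑ r ∈ range p, Real.sqrt ((p : ℝ) / (t r : ℝ))

omit h in
theorem w_nonneg (k : ℕ) (x : ℤ) : 0 ≤ w p t T k x := Real.sqrt_nonneg _

theorem w_succ (k : ℕ) (x : ℤ) :
    w p t T (k + 1) x = Real.sqrt ((p : ℝ) / (tt p t x : ℝ)) * w p t T k (T x) := by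
  unfold w
  rw [← Real.sqrt_mul]
  · congr 1
    have h3 : tau p t T (k + 1) x = tt p t x * tau p t T k (T x) := rfl
    rw [h3]
    push_cast
    have h1 : (0 : ℝ) < tt p t x := by exact_mod_cast tt_pos h x
    have h2 : (0 : ℝ) < tau p t T k (T x) := by exact_mod_cast tau_pos h k (T x)
    field_simp
    ring
  · have h1 : (0 : ℝ) < tt p t x := by exact_mod_cast tt_pos h x
    positivity

theorem w_emod (k : ℕ) (x : ℤ) : w p t T k ((x % (p : ℤ) ^ k).toNat : ℕ) = w p t T k x := by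
  unfold w
  have h1 : (((x % (p : ℤ) ^ k).toNat : ℕ) : ℤ) = x % (p : ℤ) ^ k := by
    apply Int.toNat_of_nonneg
    exact Int.emod_nonneg _ (pow_pos (pposZ h) k).ne'
  rw [h1, tau_emod h]

theorem t_coprime {r : ℕ} (hr : r < p) : IsCoprime (t r) (p : ℤ) := by
  have h1 := h.cop
  rw [← Int.isCoprime_iff_gcd_eq_one] at h1
  exact IsCoprime.of_prod_left h1 r (mem_range.mpr hr)

theorem sum_branch (k : ℕ) {r : ℕ} (hr : r < p) :
    ∑ m ∈ range (p ^ k), w p t T k (T (r : ℤ) + t r * (m : ℤ))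
      ≤ ∑ a ∈ range (p ^ k), w p t T k (a : ℤ) := by
  have hpk : (0 : ℤ) < (p : ℤ) ^ k := pow_pos (pposZ h) k
  set φ : ℕ → ℕ := fun m => ((T (r : ℤ) + t r * (m : ℤ)) % (p : ℤ) ^ k).toNat with hφ
  have hinj : Set.InjOn φ (range (p ^ k) : Finset ℕ) := by
    intro m hm m' hm' hmm
    rw [mem_coe, mem_range] at hm hm'
    have e1 : (T (r : ℤ) + t r * (m : ℤ)) % (p : ℤ) ^ k
        = (T (r : ℤ) + t r * (m' : ℤ)) % (p : ℤ) ^ k := by
      have a := Int.emod_nonneg (T (r : ℤ) + t r * (m : ℤ)) hpk.ne'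
      have b := Int.emod_nonneg (T (r : ℤ) + t r * (m' : ℤ)) hpk.ne'
      simp only [hφ] at hmm
      omega
    have e2 : (p : ℤ) ^ k ∣ t r * ((m : ℤ) - m') := by
      have := Int.emod_emod_of_dvd
      have h3 := Int.ModEq.dvd (show (T (r : ℤ) + t r * (m' : ℤ)) ≡
        (T (r : ℤ) + t r * (m : ℤ)) [ZMOD (p : ℤ) ^ k] from e1.symm)
      have e3 : T (r : ℤ) + t r * (m : ℤ) - (T (r : ℤ) + t r * (m' : ℤ))
        = t r * ((m : ℤ) - m') := by ring
      rwa [e3] at h3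
    have e4 : (p : ℤ) ^ k ∣ (m : ℤ) - m' :=
      (IsCoprime.pow_right (t_coprime h hr)).symm.dvd_of_dvd_mul_left e2
    have hm2 : (m : ℤ) < (p : ℤ) ^ k := by exact_mod_cast hm
    have hm3 : (m' : ℤ) < (p : ℤ) ^ k := by exact_mod_cast hm'
    have e5 : (m : ℤ) - m' = 0 := by
      apply Int.eq_zero_of_abs_lt_dvd e4
      rw [abs_lt]
      constructor <;> omega
    omega
  have hmap : ∀ m ∈ range (p ^ k), φ m ∈ range (p ^ k) := by
    intro m _
    rw [mem_range]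
    have a := Int.emod_nonneg (T (r : ℤ) + t r * (m : ℤ)) hpk.ne'
    have b := Int.emod_lt_of_pos (T (r : ℤ) + t r * (m : ℤ)) hpk
    have c : ((φ m : ℕ) : ℤ) < ((p ^ k : ℕ) : ℤ) := by
      simp only [hφ]
      push_cast
      rw [Int.toNat_of_nonneg a]
      exact b
    exact_mod_cast c
  have e : ∑ m ∈ range (p ^ k), w p t T k (T (r : ℤ) + t r * (m : ℤ))
      = ∑ a ∈ (range (p ^ k)).image φ, w p t T k (a : ℤ) := by
    rw [sum_image hinj]
    refine sum_congr rfl fun m _ => ?_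
    simp only [hφ]
    rw [w_emod h]
  rw [e]
  refine sum_le_sum_of_subset_of_nonneg ?_ fun _ _ _ => w_nonneg _ _
  intro a ha
  obtain ⟨m, hm, rfl⟩ := mem_image.mp ha
  exact hmap m hm

theorem W_le (k : ℕ) : ∑ a ∈ range (p ^ k), w p t T k (a : ℤ) ≤ ss p t ^ k := by
  induction k with
  | zero => simp [w, tau]
  | succ k ih =>
    have e : ∑ a ∈ range (p ^ (k + 1)), w p t T (k + 1) (a : ℤ)
        = ∑ q ∈ range p ×ˢ range (p ^ k), w p t T (k + 1) (((q.1 + p * q.2 : ℕ)) : ℤ) := by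
      symm
      refine sum_nbij' (fun q => q.1 + p * q.2) (fun a => (a % p, a / p)) ?_ ?_ ?_ ?_ ?_
      · intro q hq
        rw [mem_product, mem_range, mem_range] at hq
        rw [mem_range, pow_succ]
        have : p * (q.2 + 1) ≤ p * p ^ k := Nat.mul_le_mul_left p hq.2
        nlinarith [hq.1]
      · intro a ha
        rw [mem_range, pow_succ] at ha
        rw [mem_product, mem_range, mem_range]
        refine ⟨Nat.mod_lt _ (ppos h), ?_⟩
        exact Nat.div_lt_of_lt_mul (by rwa [mul_comm] at ha)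
      · intro q hq
        rw [mem_product, mem_range, mem_range] at hq
        refine Prod.ext ?_ ?_
        · simp [Nat.add_mul_mod_self_left, Nat.mod_eq_of_lt hq.1]
        · simp [Nat.add_mul_div_left _ _ (ppos h), Nat.div_eq_of_lt hq.1]
      · intro a _
        exact Nat.mod_add_div a p
      · intro q _
        rfl
    rw [e, sum_product]
    have hr : ∀ r ∈ range p, ∑ m ∈ range (p ^ k), w p t T (k + 1) (((r + p * m : ℕ)) : ℤ)
        ≤ Real.sqrt ((p : ℝ) / (t r : ℝ)) * ss p t ^ k := by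
      intro r hr
      rw [mem_range] at hr
      have htt : ∀ m : ℕ, tt p t ((r + p * m : ℕ) : ℤ) = t r := by
        intro m
        unfold tt
        congr 1
        push_cast
        rw [Int.add_mul_emod_self_left, Int.emod_eq_of_lt (by positivity) (by exact_mod_cast hr)]
        simp
      have hT : ∀ m : ℕ, T ((r + p * m : ℕ) : ℤ) = T (r : ℤ) + t r * (m : ℤ) := by
        intro m
        have h0 := htt 0
        simp only [mul_zero, add_zero] at h0
        have := T_add h (r : ℤ) (m : ℤ)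
        rw [h0] at this
        push_cast
        exact this
      have e2 : ∀ m ∈ range (p ^ k), w p t T (k + 1) (((r + p * m : ℕ)) : ℤ)
          = Real.sqrt ((p : ℝ) / (t r : ℝ)) * w p t T k (T (r : ℤ) + t r * (m : ℤ)) := by
        intro m _
        rw [w_succ h, htt, hT]
      rw [sum_congr rfl e2, ← mul_sum]
      exact mul_le_mul_of_nonneg_left ((sum_branch h k hr).trans ih) (Real.sqrt_nonneg _)
    refine (sum_le_sum hr).trans (le_of_eq ?_)
    rw [← sum_mul, pow_succ, mul_comm]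
    rfl

/-! ### The sum of the reciprocals -/

theorem prod_pos : 0 < ∏ r ∈ range p, t r :=
  Finset.prod_pos fun r hr => h.tpos r (mem_range.mp hr)

theorem sum_inv_le : ∑ r ∈ range p, (1 : ℝ) / (t r : ℝ) ≤ 1 := by
  set L : ℤ := ∏ r ∈ range p, t r with hL
  have hLp : 0 < L := prod_pos h
  have hdvd : ∀ r ∈ range p, t r ∣ L := fun r hr => Finset.dvd_prod_of_mem t hr
  set Cr : ℕ → Finset ℤ := fun r => {y ∈ Ico 0 L | y ≡ T (r : ℤ) [ZMOD t r]} with hCr
  have hcard : ∀ r ∈ range p, ((Cr r).card : ℤ) * t r = L := by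
    intro r hr
    have htr := h.tpos r (mem_range.mp hr)
    obtain ⟨q, hq⟩ := hdvd r hr
    have h1 := Int.Ico_filter_modEq_card 0 L htr (T (r : ℤ))
    have htrq : (t r : ℚ) ≠ 0 := by exact_mod_cast htr.ne'
    have e : ((L : ℚ) - (T (r : ℤ) : ℤ)) / (t r : ℚ) = ((0 : ℤ) - (T (r : ℤ) : ℤ)) / (t r : ℚ) + (q : ℤ) := by
      rw [hq]
      push_cast
      field_simp
      ring
    rw [e, Int.ceil_add_intCast] at h1
    have h2 : ⌈(((0 : ℤ) : ℚ) - (T (r : ℤ) : ℤ)) / (t r : ℚ)⌉ + q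
      - ⌈(((0 : ℤ) : ℚ) - (T (r : ℤ) : ℤ)) / (t r : ℚ)⌉ = q := by ring
    rw [h2] at h1
    have hq0 : 0 ≤ q := by
      by_contra hneg
      push Not at hneg
      have : L < 0 := by rw [hq]; exact mul_neg_of_pos_of_neg htr hneg
      linarith
    rw [max_eq_left hq0] at h1
    rw [hCr]
    simp only
    rw [h1, hq, mul_comm]
  have hdisj : Set.PairwiseDisjoint (range p : Set ℕ) Cr := by
    intro r hr r' hr' hne
    rw [Function.onFun, Finset.disjoint_left]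
    intro y hy hy'
    simp only [hCr, mem_filter] at hy hy'
    rw [mem_coe, mem_range] at hr hr'
    apply hne
    obtain ⟨z, hz⟩ := (Int.modEq_iff_dvd.mp hy.2.symm)
    obtain ⟨z', hz'⟩ := (Int.modEq_iff_dvd.mp hy'.2.symm)
    have htt : ∀ r < p, tt p t (r : ℤ) = t r := by
      intro r hr
      unfold tt
      rw [Int.emod_eq_of_lt (by positivity) (by exact_mod_cast hr)]
      simp
    have e1 := T_add h (r : ℤ) z
    have e2 := T_add h (r' : ℤ) z'
    rw [htt r hr] at e1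
    rw [htt r' hr'] at e2
    have e3 : T ((r : ℤ) + p * z) = T ((r' : ℤ) + p * z') := by
      rw [e1, e2]
      linarith
    have e4 := T.injective e3
    have e5 : ((r : ℤ) + p * z) % (p : ℤ) = ((r' : ℤ) + p * z') % (p : ℤ) := by rw [e4]
    rw [Int.add_mul_emod_self_left, Int.add_mul_emod_self_left,
      Int.emod_eq_of_lt (by positivity) (by exact_mod_cast hr),
      Int.emod_eq_of_lt (by positivity) (by exact_mod_cast hr')] at e5
    exact_mod_cast e5
  have hsum : ∑ r ∈ range p, ((Cr r).card : ℤ) ≤ L := by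
    have h1 : ∑ r ∈ range p, (Cr r).card = ((range p).biUnion Cr).card := (card_biUnion hdisj).symm
    have h2 : ((range p).biUnion Cr).card ≤ (Ico 0 L).card := by
      refine card_le_card ?_
      intro y hy
      obtain ⟨r, _, hr⟩ := mem_biUnion.mp hy
      exact (mem_filter.mp hr).1
    rw [Int.card_Ico] at h2
    have h3 : ((∑ r ∈ range p, (Cr r).card : ℕ) : ℤ) ≤ ((L - 0).toNat : ℤ) := by
      rw [h1]; exact_mod_cast h2
    rw [sub_zero, Int.toNat_of_nonneg hLp.le] at h3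
    push_cast at h3
    exact h3
  have hLr : (0 : ℝ) < L := by exact_mod_cast hLp
  have e : ∑ r ∈ range p, (1 : ℝ) / (t r : ℝ) = (∑ r ∈ range p, ((Cr r).card : ℝ)) / L := by
    rw [sum_div]
    refine sum_congr rfl fun r hr => ?_
    have h1 := hcard r hr
    have h2 : (0 : ℝ) < t r := by exact_mod_cast h.tpos r (mem_range.mp hr)
    have h3 : ((Cr r).card : ℝ) * t r = L := by exact_mod_cast h1
    rw [← h3]
    have h4 : ((Cr r).card : ℝ) ≠ 0 := by
      intro h0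
      rw [h0, zero_mul] at h3
      exact hLr.ne h3
    field_simp
  rw [e, div_le_one hLr]
  exact_mod_cast hsum

theorem ss_lt : ss p t < p := by
  have hpp : (0 : ℝ) < p := by exact_mod_cast ppos h
  have h1 : ∀ r ∈ range p, (Real.sqrt ((p : ℝ) / (t r : ℝ)) - 1) ^ 2
      = p * (1 / (t r : ℝ)) - 2 * Real.sqrt ((p : ℝ) / (t r : ℝ)) + 1 := by
    intro r hr
    have h2 : (0 : ℝ) < t r := by exact_mod_cast h.tpos r (mem_range.mp hr)
    have h3 : Real.sqrt ((p : ℝ) / (t r : ℝ)) ^ 2 = (p : ℝ) / (t r : ℝ) :=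
      Real.sq_sqrt (by positivity)
    have e : (Real.sqrt ((p : ℝ) / (t r : ℝ)) - 1) ^ 2
      = Real.sqrt ((p : ℝ) / (t r : ℝ)) ^ 2 - 2 * Real.sqrt ((p : ℝ) / (t r : ℝ)) + 1 := by ring
    rw [e, h3]
    ring
  have h2 : ∑ r ∈ range p, (Real.sqrt ((p : ℝ) / (t r : ℝ)) - 1) ^ 2 ≤ 2 * (p - ss p t) := by
    rw [sum_congr rfl h1, sum_add_distrib, sum_sub_distrib, ← mul_sum, ← mul_sum]
    have h3 := sum_inv_le h
    have h4 : (p : ℝ) * ∑ r ∈ range p, (1 : ℝ) / (t r : ℝ) ≤ p * 1 :=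
      mul_le_mul_of_nonneg_left h3 hpp.le
    simp only [sum_const, card_range, nsmul_eq_mul, mul_one]
    unfold ss
    linarith
  by_contra hneg
  push Not at hneg
  have h3 : ∑ r ∈ range p, (Real.sqrt ((p : ℝ) / (t r : ℝ)) - 1) ^ 2 = 0 := by
    apply le_antisymm
    · linarith
    · exact sum_nonneg fun _ _ => sq_nonneg _
  have h4 : ∀ r ∈ range p, t r = (p : ℤ) := by
    intro r hr
    have h5 := (sum_eq_zero_iff_of_nonneg (fun _ _ => sq_nonneg _)).mp h3 r hr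
    have h6 : (0 : ℝ) < t r := by exact_mod_cast h.tpos r (mem_range.mp hr)
    have h7 : Real.sqrt ((p : ℝ) / (t r : ℝ)) = 1 := by
      have := pow_eq_zero_iff (two_ne_zero) |>.mp h5
      linarith
    rw [Real.sqrt_eq_one, div_eq_one_iff_eq h6.ne'] at h7
    exact_mod_cast h7.symm
  have h5 := h.prod
  rw [prod_congr rfl h4, prod_const, card_range] at h5
  exact lt_irrefl _ h5

/-! ### Counting -/

omit h in
theorem count_class (N : ℕ) (m v : ℤ) (hm : 0 < m) :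
    (({x ∈ Icc (-(N : ℤ)) N | x ≡ v [ZMOD m]}.card : ℕ) : ℝ) ≤ (2 * N + 1) / m + 1 := by
  have e : Icc (-(N : ℤ)) N = Ico (-(N : ℤ)) (N + 1) := by
    ext x; simp only [mem_Icc, mem_Ico]; omega
  rw [e]
  have h1 := Int.Ico_filter_modEq_card (-(N : ℤ)) (N + 1) hm v
  have hmr : (0 : ℝ) < m := by exact_mod_cast hm
  have hmq : (0 : ℚ) < m := by exact_mod_cast hm
  have h2 : ((({x ∈ Ico (-(N : ℤ)) (N + 1) | x ≡ v [ZMOD m]}.card : ℕ) : ℤ) : ℚ)
      ≤ (2 * N + 1) / m + 1 := by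
    rw [h1]
    push_cast
    apply max_le
    · have a := Int.ceil_lt_add_one ((((N : ℤ) + 1 : ℤ) - (v : ℚ)) / (m : ℚ))
      have b := Int.le_ceil (((-(N : ℤ) : ℤ) - (v : ℚ)) / (m : ℚ))
      push_cast at a b
      have c : ((N : ℚ) + 1 - v) / m - (-(N : ℚ) - v) / m = (2 * N + 1) / m := by
        field_simp
        ring
      linarith
    · positivity
  have h3 : ((({x ∈ Ico (-(N : ℤ)) (N + 1) | x ≡ v [ZMOD m]}.card : ℕ) : ℚ) : ℝ)
      ≤ (((2 * N + 1) / m + 1 : ℚ) : ℝ) := by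
    exact_mod_cast h2
  push_cast at h3
  exact h3

/-- Points whose forward slope of length `k` is small. -/
noncomputable def B1 (p : ℕ) (t : ℕ → ℤ) (T : Equiv.Perm ℤ) (η : ℝ) (k N : ℕ) : Finset ℤ :=
  {n ∈ Icc (-(N : ℤ)) N | (tau p t T k n : ℝ) * η ^ (2 * k) < (p : ℝ) ^ k}

/-- Points whose backward slope of length `k` is small. -/
noncomputable def B2 (p : ℕ) (t : ℕ → ℤ) (T : Equiv.Perm ℤ) (η : ℝ) (k N : ℕ) : Finset ℤ :=
  {y ∈ Icc (-(N : ℤ)) N | (p : ℝ) ^ k * η ^ (2 * k) < (tau p t T k ((T ^ k)⁻¹ y) : ℝ)}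

theorem card_B1 (η : ℝ) (hη : 0 < η) (hs : ss p t ≤ p * η ^ 2) (k N : ℕ) :
    ((B1 p t T η k N).card : ℝ) ≤ (2 * N + 1 + (p : ℝ) ^ k) * η ^ k := by
  have hpp : (0 : ℝ) < p := by exact_mod_cast ppos h
  have hpk : (0 : ℤ) < (p : ℤ) ^ k := pow_pos (pposZ h) k
  set K : ℝ := (2 * N + 1) / (p : ℝ) ^ k + 1 with hK
  have hK0 : 0 ≤ K := by positivity
  set S : Finset ℕ := (range (p ^ k)).filter
    (fun a : ℕ => (tau p t T k (a : ℤ) : ℝ) * η ^ (2 * k) < (p : ℝ) ^ k) with hS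
  have hsub : B1 p t T η k N ⊆ S.biUnion (fun a => {x ∈ Icc (-(N : ℤ)) N | x ≡ (a : ℤ) [ZMOD (p : ℤ) ^ k]}) := by
    intro n hn
    obtain ⟨hn1, hn2⟩ := mem_filter.mp hn
    have ha := Int.emod_nonneg n hpk.ne'
    have hb := Int.emod_lt_of_pos n hpk
    have hcast : (((n % (p : ℤ) ^ k).toNat : ℕ) : ℤ) = n % (p : ℤ) ^ k := Int.toNat_of_nonneg ha
    rw [mem_biUnion]
    refine ⟨(n % (p : ℤ) ^ k).toNat, ?_, ?_⟩
    · rw [hS, mem_filter, mem_range]
      constructor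
      · have : (((n % (p : ℤ) ^ k).toNat : ℕ) : ℤ) < ((p ^ k : ℕ) : ℤ) := by
          rw [hcast]; push_cast; exact hb
        exact_mod_cast this
      · rw [hcast, tau_emod h]
        exact hn2
    · rw [mem_filter]
      refine ⟨hn1, ?_⟩
      rw [hcast]
      exact (Int.mod_modEq n _).symm
  have h1 : ((B1 p t T η k N).card : ℝ) ≤ ∑ a ∈ S, K := by
    have h2 := (card_le_card hsub).trans card_biUnion_le
    have h3 : ((B1 p t T η k N).card : ℝ) ≤ ∑ a ∈ S,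
        (({x ∈ Icc (-(N : ℤ)) N | x ≡ (a : ℤ) [ZMOD (p : ℤ) ^ k]}.card : ℕ) : ℝ) := by
      exact_mod_cast h2
    refine h3.trans (sum_le_sum fun a _ => ?_)
    have := count_class N ((p : ℤ) ^ k) (a : ℤ) hpk
    push_cast at this
    exact this
  have h4 : ∑ a ∈ S, K
      ≤ ∑ a ∈ S,
        w p t T k (a : ℤ) / η ^ k * K := by
    refine sum_le_sum fun a ha => ?_
    have hbad := (mem_filter.mp ha).2
    have htau : (0 : ℝ) < tau p t T k (a : ℤ) := by exact_mod_cast tau_pos h k (a : ℤ)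
    have h5 : 1 ≤ w p t T k (a : ℤ) / η ^ k := by
      rw [le_div_iff₀ (pow_pos hη k), one_mul]
      unfold w
      apply Real.le_sqrt_of_sq_le
      rw [← pow_mul, le_div_iff₀ htau, mul_comm k 2, mul_comm]
      exact hbad.le
    calc K = 1 * K := (one_mul K).symm
      _ ≤ _ := mul_le_mul_of_nonneg_right h5 hK0
  have h6 : ∑ a ∈ S,
        w p t T k (a : ℤ) / η ^ k * K ≤ ∑ a ∈ range (p ^ k), w p t T k (a : ℤ) / η ^ k * K := by
    refine sum_le_sum_of_subset_of_nonneg (filter_subset _ _) fun a _ _ => ?_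
    have := w_nonneg (p := p) (t := t) (T := T) k (a : ℤ)
    positivity
  have h7 : ∑ a ∈ range (p ^ k), w p t T k (a : ℤ) / η ^ k * K
      = (∑ a ∈ range (p ^ k), w p t T k (a : ℤ)) * (K / η ^ k) := by
    rw [sum_mul]
    refine sum_congr rfl fun a _ => ?_
    ring
  have h8 : (∑ a ∈ range (p ^ k), w p t T k (a : ℤ)) ≤ (p * η ^ 2) ^ k := by
    refine (W_le h k).trans ?_
    refine pow_le_pow_left₀ ?_ hs k
    exact sum_nonneg fun _ _ => Real.sqrt_nonneg _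
  have h9 : (∑ a ∈ range (p ^ k), w p t T k (a : ℤ)) * (K / η ^ k) ≤ (p * η ^ 2) ^ k * (K / η ^ k) :=
    mul_le_mul_of_nonneg_right h8 (by positivity)
  refine (h1.trans (h4.trans (h6.trans (h7.le.trans h9)))).trans (le_of_eq ?_)
  rw [hK, mul_pow, ← pow_mul]
  have hη' : η ^ k ≠ 0 := (pow_pos hη k).ne'
  have hp' : (p : ℝ) ^ k ≠ 0 := (pow_pos hpp k).ne'
  have e2 : η ^ (2 * k) = η ^ k * η ^ k := by rw [two_mul, pow_add]
  rw [e2]
  field_simp

theorem card_B2 (η : ℝ) (hη : 0 < η) (hs : ss p t ≤ p * η ^ 2) (k N : ℕ) :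
    ((B2 p t T η k N).card : ℝ) ≤ (2 * N + 1) * η ^ k + (p : ℝ) ^ k := by
  have hpp : (0 : ℝ) < p := by exact_mod_cast ppos h
  have hpk : (0 : ℤ) < (p : ℤ) ^ k := pow_pos (pposZ h) k
  set S : Finset ℕ := (range (p ^ k)).filter
    (fun a : ℕ => (p : ℝ) ^ k * η ^ (2 * k) < (tau p t T k (a : ℤ) : ℝ)) with hS
  have hsub : B2 p t T η k N ⊆ S.biUnion (fun a => {x ∈ Icc (-(N : ℤ)) N |
      x ≡ (T ^ k) (a : ℤ) [ZMOD tau p t T k (a : ℤ)]}) := by
    intro y hy
    obtain ⟨hy1, hy2⟩ := mem_filter.mp hy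
    set n : ℤ := (T ^ k)⁻¹ y with hn
    have hny : (T ^ k) n = y := by rw [hn]; simp
    have ha := Int.emod_nonneg n hpk.ne'
    have hb := Int.emod_lt_of_pos n hpk
    have hcast : (((n % (p : ℤ) ^ k).toNat : ℕ) : ℤ) = n % (p : ℤ) ^ k := Int.toNat_of_nonneg ha
    rw [mem_biUnion]
    refine ⟨(n % (p : ℤ) ^ k).toNat, ?_, ?_⟩
    · rw [hS, mem_filter, mem_range]
      constructor
      · have : (((n % (p : ℤ) ^ k).toNat : ℕ) : ℤ) < ((p ^ k : ℕ) : ℤ) := by
          rw [hcast]; push_cast; exact hb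
        exact_mod_cast this
      · rw [hcast, tau_emod h]
        exact hy2
    · rw [mem_filter]
      refine ⟨hy1, ?_⟩
      rw [hcast]
      have e : n = n % (p : ℤ) ^ k + (p : ℤ) ^ k * (n / (p : ℤ) ^ k) :=
        (Int.emod_add_mul_ediv n _).symm
      have h2 := iter_add h k (n % (p : ℤ) ^ k) (n / (p : ℤ) ^ k)
      rw [← e, hny] at h2
      rw [Int.modEq_iff_dvd, h2]
      refine ⟨-(n / (p : ℤ) ^ k), ?_⟩
      ring
  have h1 : ((B2 p t T η k N).card : ℝ) ≤ ∑ a ∈ S, ((2 * N + 1) / (tau p t T k (a : ℤ) : ℝ) + 1) := by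
    have h2 := (card_le_card hsub).trans card_biUnion_le
    have h3 : ((B2 p t T η k N).card : ℝ) ≤ ∑ a ∈ S, (({x ∈ Icc (-(N : ℤ)) N |
      x ≡ (T ^ k) (a : ℤ) [ZMOD tau p t T k (a : ℤ)]}.card : ℕ) : ℝ) := by
      exact_mod_cast h2
    refine h3.trans (sum_le_sum fun a _ => ?_)
    exact count_class N _ _ (tau_pos h k (a : ℤ))
  have h4 : ∑ a ∈ S, ((2 * N + 1) / (tau p t T k (a : ℤ) : ℝ) + 1)
      ≤ ∑ a ∈ S, ((2 * N + 1) / ((p : ℝ) ^ k * η ^ k) * w p t T k (a : ℤ) + 1) := by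
    refine sum_le_sum fun a ha => ?_
    have hbad := (mem_filter.mp ha).2
    have htau : (0 : ℝ) < tau p t T k (a : ℤ) := by exact_mod_cast tau_pos h k (a : ℤ)
    have hx : Real.sqrt ((p : ℝ) ^ k) * η ^ k ≤ Real.sqrt (tau p t T k (a : ℤ) : ℝ) := by
      apply Real.le_sqrt_of_sq_le
      rw [mul_pow, Real.sq_sqrt (by positivity), ← pow_mul, mul_comm k 2]
      exact hbad.le
    have hy : 1 / (tau p t T k (a : ℤ) : ℝ) ≤ 1 / ((p : ℝ) ^ k * η ^ k) * w p t T k (a : ℤ) := by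
      unfold w
      rw [Real.sqrt_div (by positivity)]
      set A := Real.sqrt ((p : ℝ) ^ k) with hA
      set D := Real.sqrt (tau p t T k (a : ℤ) : ℝ) with hD
      have hA0 : 0 < A := Real.sqrt_pos.mpr (by positivity)
      have hD0 : 0 < D := Real.sqrt_pos.mpr htau
      have eA : (p : ℝ) ^ k = A * A := (Real.mul_self_sqrt (by positivity)).symm
      have eD : (tau p t T k (a : ℤ) : ℝ) = D * D := (Real.mul_self_sqrt htau.le).symm
      rw [eA, eD]
      have hηk : 0 < η ^ k := pow_pos hη k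
      have e1 : 1 / (A * A * η ^ k) * (A / D) = 1 / (A * η ^ k * D) := by
        field_simp
      rw [e1]
      apply one_div_le_one_div_of_le (by positivity)
      exact mul_le_mul_of_nonneg_right hx hD0.le
    have e1 : (2 * (N : ℝ) + 1) / (tau p t T k (a : ℤ) : ℝ)
      = (2 * N + 1) * (1 / (tau p t T k (a : ℤ) : ℝ)) := by ring
    have e2 : (2 * (N : ℝ) + 1) / ((p : ℝ) ^ k * η ^ k) * w p t T k (a : ℤ)
      = (2 * N + 1) * (1 / ((p : ℝ) ^ k * η ^ k) * w p t T k (a : ℤ)) := by ring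
    rw [e1, e2]
    have := mul_le_mul_of_nonneg_left hy (by positivity : (0 : ℝ) ≤ 2 * N + 1)
    linarith
  have h6 : ∑ a ∈ S, ((2 * N + 1) / ((p : ℝ) ^ k * η ^ k) * w p t T k (a : ℤ) + 1)
      ≤ ∑ a ∈ range (p ^ k), ((2 * N + 1) / ((p : ℝ) ^ k * η ^ k) * w p t T k (a : ℤ) + 1) := by
    refine sum_le_sum_of_subset_of_nonneg (filter_subset _ _) fun a _ _ => ?_
    have := w_nonneg (p := p) (t := t) (T := T) k (a : ℤ)
    positivity
  have h7 : ∑ a ∈ range (p ^ k), ((2 * N + 1) / ((p : ℝ) ^ k * η ^ k) * w p t T k (a : ℤ) + 1)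
      = (2 * N + 1) / ((p : ℝ) ^ k * η ^ k) * (∑ a ∈ range (p ^ k), w p t T k (a : ℤ))
        + (p : ℝ) ^ k := by
    rw [sum_add_distrib, ← mul_sum]
    simp
  have h8 : (∑ a ∈ range (p ^ k), w p t T k (a : ℤ)) ≤ (p * η ^ 2) ^ k := by
    refine (W_le h k).trans ?_
    refine pow_le_pow_left₀ ?_ hs k
    exact sum_nonneg fun _ _ => Real.sqrt_nonneg _
  have h9 : (2 * N + 1) / ((p : ℝ) ^ k * η ^ k) * (∑ a ∈ range (p ^ k), w p t T k (a : ℤ))
      ≤ (2 * N + 1) / ((p : ℝ) ^ k * η ^ k) * (p * η ^ 2) ^ k :=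
    mul_le_mul_of_nonneg_left h8 (by positivity)
  have h10 : (2 * (N : ℝ) + 1) / ((p : ℝ) ^ k * η ^ k) * (p * η ^ 2) ^ k = (2 * N + 1) * η ^ k := by
    rw [mul_pow, ← pow_mul]
    have e2 : η ^ (2 * k) = η ^ k * η ^ k := by rw [two_mul, pow_add]
    rw [e2]
    have hη' : η ^ k ≠ 0 := (pow_pos hη k).ne'
    have hp' : (p : ℝ) ^ k ≠ 0 := (pow_pos hpp k).ne'
    field_simp
  linarith

/-! ### Escape of typical points -/

theorem fwd (η : ℝ) (hη : 0 < η) (k : ℕ) (y : ℤ)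
    (hy : (p : ℝ) ^ k ≤ (tau p t T k y : ℝ) * η ^ (2 * k))
    (hy2 : (UU p u : ℝ) * (p : ℝ) ^ k ≤ (|y| : ℤ)) :
    ((|y| : ℤ) - (UU p u : ℝ) * (p : ℝ) ^ k) / η ^ (2 * k) ≤ ((|(T ^ k) y| : ℤ) : ℝ) := by
  have hpp : (0 : ℝ) < p := by exact_mod_cast ppos h
  have hpk : (0 : ℝ) < (p : ℝ) ^ k := pow_pos hpp k
  have htau : (0 : ℝ) < tau p t T k y := by exact_mod_cast tau_pos h k y
  have hU : (0 : ℝ) ≤ UU p u := by exact_mod_cast (UU_nonneg (p := p) (u := u))
  have h1 : |(p : ℝ) ^ k * ((T ^ k) y : ℤ) - (tau p t T k y : ℝ) * y|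
      ≤ (UU p u : ℝ) * ((p : ℝ) ^ k - 1) * tau p t T k y := by exact_mod_cast err h k y
  have h2 : (tau p t T k y : ℝ) * |(y : ℝ)| ≤ (p : ℝ) ^ k * |(((T ^ k) y : ℤ) : ℝ)|
      + (UU p u : ℝ) * ((p : ℝ) ^ k - 1) * tau p t T k y := by
    have h3 : |(tau p t T k y : ℝ) * y| ≤ |(p : ℝ) ^ k * (((T ^ k) y : ℤ) : ℝ)|
      + |(p : ℝ) ^ k * ((T ^ k) y : ℤ) - (tau p t T k y : ℝ) * y| := by
      have e : (tau p t T k y : ℝ) * y = (p : ℝ) ^ k * (((T ^ k) y : ℤ) : ℝ)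
        - ((p : ℝ) ^ k * ((T ^ k) y : ℤ) - (tau p t T k y : ℝ) * y) := by ring
      calc |(tau p t T k y : ℝ) * y| = |(p : ℝ) ^ k * (((T ^ k) y : ℤ) : ℝ)
        - ((p : ℝ) ^ k * ((T ^ k) y : ℤ) - (tau p t T k y : ℝ) * y)| := by rw [← e]
        _ ≤ _ := abs_sub _ _
    rw [abs_mul, abs_mul, abs_of_pos htau, abs_of_pos hpk] at h3
    linarith
  push_cast
  push_cast at hy2
  have h4 : (tau p t T k y : ℝ) * (|(y : ℝ)| - (UU p u : ℝ) * (p : ℝ) ^ k)
      ≤ (p : ℝ) ^ k * |(((T ^ k) y : ℤ) : ℝ)| := by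
    have : 0 ≤ (UU p u : ℝ) * tau p t T k y := by positivity
    nlinarith
  have h5 : 0 ≤ |(y : ℝ)| - (UU p u : ℝ) * (p : ℝ) ^ k := by linarith
  rw [div_le_iff₀ (by positivity)]
  have h6 : (p : ℝ) ^ k * (|(y : ℝ)| - (UU p u : ℝ) * (p : ℝ) ^ k)
      ≤ (tau p t T k y : ℝ) * η ^ (2 * k) * (|(y : ℝ)| - (UU p u : ℝ) * (p : ℝ) ^ k) :=
    mul_le_mul_of_nonneg_right hy h5
  have h7 : (tau p t T k y : ℝ) * (|(y : ℝ)| - (UU p u : ℝ) * (p : ℝ) ^ k) * η ^ (2 * k)
      ≤ (p : ℝ) ^ k * |(((T ^ k) y : ℤ) : ℝ)| * η ^ (2 * k) :=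
    mul_le_mul_of_nonneg_right h4 (by positivity)
  have h8 : (p : ℝ) ^ k * (|(y : ℝ)| - (UU p u : ℝ) * (p : ℝ) ^ k)
      ≤ (p : ℝ) ^ k * (|(((T ^ k) y : ℤ) : ℝ)| * η ^ (2 * k)) := by linarith
  exact le_of_mul_le_mul_left h8 hpk

theorem bwd (η : ℝ) (hη : 0 < η) (hη1 : η ≤ 1) (k : ℕ) (y : ℤ)
    (hy : (tau p t T k ((T ^ k)⁻¹ y) : ℝ) ≤ (p : ℝ) ^ k * η ^ (2 * k)) :
    ((|y| : ℤ) - (UU p u : ℝ) * (p : ℝ) ^ k) / η ^ (2 * k) ≤ ((|(T ^ k)⁻¹ y| : ℤ) : ℝ) := by
  have hpp : (0 : ℝ) < p := by exact_mod_cast ppos h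
  have hpk : (0 : ℝ) < (p : ℝ) ^ k := pow_pos hpp k
  set n : ℤ := (T ^ k)⁻¹ y with hn
  have hny : (T ^ k) n = y := by rw [hn]; simp
  have htau : (0 : ℝ) < tau p t T k n := by exact_mod_cast tau_pos h k n
  have hU : (0 : ℝ) ≤ UU p u := by exact_mod_cast (UU_nonneg (p := p) (u := u))
  have h1 : |(p : ℝ) ^ k * (y : ℝ) - (tau p t T k n : ℝ) * n|
      ≤ (UU p u : ℝ) * ((p : ℝ) ^ k - 1) * tau p t T k n := by
    have := err h k n
    rw [hny] at this
    exact_mod_cast this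
  have h2 : (p : ℝ) ^ k * |(y : ℝ)| ≤ (tau p t T k n : ℝ) * |(n : ℝ)|
      + (UU p u : ℝ) * ((p : ℝ) ^ k - 1) * tau p t T k n := by
    have h3 : |(p : ℝ) ^ k * (y : ℝ)| ≤ |(tau p t T k n : ℝ) * n|
      + |(p : ℝ) ^ k * (y : ℝ) - (tau p t T k n : ℝ) * n| := by
      have e : (p : ℝ) ^ k * (y : ℝ) = (tau p t T k n : ℝ) * n
        + ((p : ℝ) ^ k * (y : ℝ) - (tau p t T k n : ℝ) * n) := by ring
      calc |(p : ℝ) ^ k * (y : ℝ)| = |(tau p t T k n : ℝ) * n
        + ((p : ℝ) ^ k * (y : ℝ) - (tau p t T k n : ℝ) * n)| := by rw [← e]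
        _ ≤ _ := abs_add_le _ _
    rw [abs_mul, abs_mul, abs_of_pos htau, abs_of_pos hpk] at h3
    linarith
  push_cast
  rw [div_le_iff₀ (by positivity)]
  -- |y| - U p^k ≤ |n| η^(2k)
  have hη2 : η ^ (2 * k) ≤ 1 := pow_le_one₀ hη.le hη1
  have h4 : (p : ℝ) ^ k * |(y : ℝ)| ≤ (tau p t T k n : ℝ) * (|(n : ℝ)| + (UU p u : ℝ) * (p : ℝ) ^ k) := by
    have : 0 ≤ (UU p u : ℝ) * tau p t T k n := by positivity
    nlinarith
  have h5 : (tau p t T k n : ℝ) * (|(n : ℝ)| + (UU p u : ℝ) * (p : ℝ) ^ k)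
      ≤ (p : ℝ) ^ k * η ^ (2 * k) * (|(n : ℝ)| + (UU p u : ℝ) * (p : ℝ) ^ k) :=
    mul_le_mul_of_nonneg_right hy (by positivity)
  have h6 : (p : ℝ) ^ k * |(y : ℝ)|
      ≤ (p : ℝ) ^ k * (η ^ (2 * k) * (|(n : ℝ)| + (UU p u : ℝ) * (p : ℝ) ^ k)) := by linarith
  have h7 := le_of_mul_le_mul_left h6 hpk
  have h8 : η ^ (2 * k) * ((UU p u : ℝ) * (p : ℝ) ^ k) ≤ 1 * ((UU p u : ℝ) * (p : ℝ) ^ k) :=
    mul_le_mul_of_nonneg_right hη2 (by positivity)
  linarith

omit h in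
theorem card_small (N : ℕ) (R : ℝ) (hR : 0 ≤ R) :
    (({y ∈ Icc (-(N : ℤ)) N | ((|y| : ℤ) : ℝ) < R}.card : ℕ) : ℝ) ≤ 2 * R + 1 := by
  have hsub : {y ∈ Icc (-(N : ℤ)) N | ((|y| : ℤ) : ℝ) < R} ⊆ Icc (-⌊R⌋) ⌊R⌋ := by
    intro y hy
    have h1 := (mem_filter.mp hy).2
    have h2 : |y| ≤ ⌊R⌋ := Int.le_floor.mpr h1.le
    rw [mem_Icc]
    exact abs_le.mp h2
  have h1 := card_le_card hsub
  rw [Int.card_Icc] at h1
  have hf : 0 ≤ ⌊R⌋ := Int.floor_nonneg.mpr hR
  have h2 : ((⌊R⌋ + 1 - -⌊R⌋).toNat : ℤ) = 2 * ⌊R⌋ + 1 := by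
    rw [Int.toNat_of_nonneg (by linarith)]; ring
  have h3 : (({y ∈ Icc (-(N : ℤ)) N | ((|y| : ℤ) : ℝ) < R}.card : ℕ) : ℤ) ≤ 2 * ⌊R⌋ + 1 := by
    rw [← h2]; exact_mod_cast h1
  have h4 : (({y ∈ Icc (-(N : ℤ)) N | ((|y| : ℤ) : ℝ) < R}.card : ℕ) : ℝ) ≤ 2 * (⌊R⌋ : ℝ) + 1 := by
    exact_mod_cast h3
  have := Int.floor_le R
  linarith

/-- The exceptional points at scale `N`. -/
noncomputable def Ex (T : Equiv.Perm ℤ) (κ : ℝ) (k N : ℕ) : Finset ℤ :=
  {y ∈ Icc (-(N : ℤ)) N | ¬ ((N : ℝ) ^ (1 + κ) < ((|(T ^ k) y| : ℤ) : ℝ) ∧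
    (N : ℝ) ^ (1 + κ) < ((|(T ^ k)⁻¹ y| : ℤ) : ℝ))}

theorem typical : ∃ κ c C : ℝ, 0 < κ ∧ 0 < c ∧ c < 1 ∧ 0 < C ∧ ∀ N : ℕ, 1 ≤ N →
    ((Ex T κ (Nat.log p N / 2) N).card : ℝ) ≤ C * (N : ℝ) ^ (1 - c) := by
  have hp1 := h.one_lt
  have hpp : (0 : ℝ) < p := by exact_mod_cast ppos h
  have hp2 : (2 : ℝ) ≤ p := by exact_mod_cast hp1
  have hlogp : 0 < Real.log p := Real.log_pos (by linarith)
  set s := ss p t with hs
  have hslt : s < p := ss_lt h
  set g : ℝ := max (s / p) (1 / 2) with hg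
  have hg1 : g < 1 := max_lt (by rw [div_lt_one hpp]; exact hslt) (by norm_num)
  have hg2 : 1 / 2 ≤ g := le_max_right _ _
  set η : ℝ := Real.sqrt g with hη
  have hη2 : η ^ 2 = g := Real.sq_sqrt (by linarith)
  have hη0 : 0 < η := Real.sqrt_pos.mpr (by linarith)
  have hη1 : η < 1 := by
    rw [hη, Real.sqrt_lt' one_pos, one_pow]; exact hg1
  have hηhalf : 1 / 2 ≤ η := by nlinarith
  have hsη : s ≤ p * η ^ 2 := by
    rw [hη2]
    have : s / p ≤ g := le_max_left _ _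
    rw [div_le_iff₀ hpp] at this
    linarith
  set c : ℝ := - Real.log η / (2 * Real.log p) with hc
  have hlogη : Real.log η < 0 := Real.log_neg hη0 hη1
  have hc0 : 0 < c := by
    rw [hc]
    exact div_pos (by linarith) (by linarith)
  have hc1 : c < 1 := by
    rw [hc, div_lt_one (by linarith)]
    have h1 : -Real.log η = Real.log (1 / η) := by rw [one_div, Real.log_inv]
    rw [h1]
    have h2 : Real.log (1 / η) ≤ Real.log p := by
      apply Real.log_le_log (by positivity)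
      rw [div_le_iff₀ hη0]
      nlinarith
    linarith
  set U : ℝ := (UU p u : ℝ) with hU
  have hU0 : 0 ≤ U := by rw [hU]; exact_mod_cast (UU_nonneg (p := p) (u := u))
  -- k0
  have hpη : 1 < (p : ℝ) * η := by
    have : (p : ℝ) * η ≥ 2 * η := mul_le_mul_of_nonneg_right hp2 hη0.le
    have h3 : 1 < 2 * η := by
      by_contra hcon
      push Not at hcon
      have : η ≤ 1 / 2 := by linarith
      nlinarith
    linarith
  obtain ⟨k0, hk0⟩ := pow_unbounded_of_one_lt (2 * U) hpη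
  have hk0' : ∀ k ≥ k0, 2 * U ≤ ((p : ℝ) * η) ^ k := fun k hk =>
    hk0.le.trans (pow_le_pow_right₀ hpη.le hk)
  -- N1 with N^{c/2} > 4
  obtain ⟨N1, hN1⟩ : ∃ N1 : ℕ, ∀ N : ℕ, N1 ≤ N → (4 : ℝ) < (N : ℝ) ^ (c / 2) := by
    have h1 : Filter.Tendsto (fun N : ℕ => (N : ℝ) ^ (c / 2)) Filter.atTop Filter.atTop :=
      (tendsto_rpow_atTop (by positivity)).comp tendsto_natCast_atTop_atTop
    have h2 := h1.eventually (Filter.eventually_gt_atTop (4 : ℝ))
    exact Filter.eventually_atTop.mp h2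
  set N0 : ℕ := max N1 (p ^ (2 * k0)) with hN0
  refine ⟨c / 2, c, 22 + 3 * N0, by positivity, hc0, hc1, by positivity, ?_⟩
  intro N hN
  have hNr : (1 : ℝ) ≤ N := by exact_mod_cast hN
  have hN1c : (1 : ℝ) ≤ (N : ℝ) ^ (1 - c) := Real.one_le_rpow hNr (by linarith)
  set k : ℕ := Nat.log p N / 2 with hk
  by_cases hsmall : N < N0
  · -- trivial bound
    have h1 : (Ex T (c / 2) k N).card ≤ (Icc (-(N : ℤ)) N).card := card_le_card (filter_subset _ _)
    rw [Int.card_Icc] at h1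
    have h2 : ((((N : ℤ) + 1 - -(N : ℤ)).toNat : ℕ) : ℤ) = 2 * N + 1 := by
      rw [Int.toNat_of_nonneg (by omega)]; ring
    have h3 : (((Ex T (c / 2) k N).card : ℕ) : ℤ) ≤ 2 * N + 1 := by
      rw [← h2]; exact_mod_cast h1
    have h4 : ((Ex T (c / 2) k N).card : ℝ) ≤ 2 * N + 1 := by exact_mod_cast h3
    have h5 : (N : ℝ) ≤ N0 := by exact_mod_cast hsmall.le
    have h6 : (0 : ℝ) ≤ 22 + 3 * N0 := by positivity
    calc ((Ex T (c / 2) k N).card : ℝ) ≤ 3 * N0 := by linarith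
      _ ≤ (22 + 3 * N0) * 1 := by linarith
      _ ≤ (22 + 3 * N0) * (N : ℝ) ^ (1 - c) := mul_le_mul_of_nonneg_left hN1c h6
  · push Not at hsmall
    have hNN1 : N1 ≤ N := (le_max_left _ _).trans hsmall
    have hNk0 : p ^ (2 * k0) ≤ N := (le_max_right _ _).trans hsmall
    have hNne : N ≠ 0 := by omega
    have hkk0 : k0 ≤ k := by
      have : 2 * k0 ≤ Nat.log p N := (Nat.le_log_iff_pow_le hp1 hNne).mpr hNk0
      omega
    have hkup : p ^ (2 * k) ≤ N := by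
      have h1 : p ^ (2 * k) ≤ p ^ (Nat.log p N) := Nat.pow_le_pow_right (ppos h) (by omega)
      exact h1.trans (Nat.pow_log_le_self p hNne)
    have hklow : N < p ^ (2 * k + 2) := by
      have h1 := Nat.lt_pow_succ_log_self hp1 N
      exact h1.trans_le (Nat.pow_le_pow_right (ppos h) (by omega))
    have hkup' : (p : ℝ) ^ (2 * k) ≤ N := by exact_mod_cast hkup
    have hklow' : (N : ℝ) < (p : ℝ) ^ (2 * k + 2) := by exact_mod_cast hklow
    have hηk : 0 < η ^ k := pow_pos hη0 k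
    -- η^k ≤ 2 N^{-c}
    have hηN : η ^ k ≤ 2 * (N : ℝ) ^ (-c) := by
      have h1 : Real.log N ≤ (2 * k + 2) * Real.log p := by
        have := Real.log_le_log (by linarith) hklow'.le
        rw [Real.log_pow] at this
        push_cast at this
        exact this
      have h2 : η ^ (k + 1) ≤ (N : ℝ) ^ (-c) := by
        rw [← Real.log_le_log_iff (by positivity) (by positivity), Real.log_pow,
          Real.log_rpow (by linarith)]
        have h3 : c * Real.log N ≤ c * ((2 * k + 2) * Real.log p) :=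
          mul_le_mul_of_nonneg_left h1 hc0.le
        have h4 : c * ((2 * k + 2) * Real.log p) = -Real.log η * (k + 1) := by
          rw [hc]; field_simp
        push_cast
        linarith
      rw [pow_succ] at h2
      nlinarith
    -- p^k ≤ N η^k
    have hpkN : (p : ℝ) ^ k ≤ N * η ^ k := by
      have h1 : (1 : ℝ) ≤ ((p : ℝ) * η) ^ k := one_le_pow₀ hpη.le
      have e : (p : ℝ) ^ (2 * k) = (p : ℝ) ^ k * (p : ℝ) ^ k := by rw [two_mul, pow_add]
      have hpk : (0 : ℝ) < (p : ℝ) ^ k := pow_pos hpp k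
      rw [mul_pow] at h1
      calc (p : ℝ) ^ k = (p : ℝ) ^ k * 1 := (mul_one _).symm
        _ ≤ (p : ℝ) ^ k * ((p : ℝ) ^ k * η ^ k) := mul_le_mul_of_nonneg_left h1 hpk.le
        _ = (p : ℝ) ^ (2 * k) * η ^ k := by rw [e]; ring
        _ ≤ N * η ^ k := mul_le_mul_of_nonneg_right hkup' hηk.le
    have hone : (1 : ℝ) ≤ (p : ℝ) ^ k := one_le_pow₀ (by linarith)
    have hηk1 : η ^ k ≤ 1 := pow_le_one₀ hη0.le hη1.le
    -- the exceptional set is covered
    have hcov : Ex T (c / 2) k N ⊆ (B1 p t T η k N ∪ B2 p t T η k N) ∪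
        {y ∈ Icc (-(N : ℤ)) N | ((|y| : ℤ) : ℝ) < N * η ^ k} := by
      intro y hy
      obtain ⟨hy1, hy2⟩ := mem_filter.mp hy
      by_contra hcon
      rw [mem_union, mem_union, not_or, not_or] at hcon
      obtain ⟨⟨c1, c2⟩, c3⟩ := hcon
      apply hy2
      have d1 : (p : ℝ) ^ k ≤ (tau p t T k y : ℝ) * η ^ (2 * k) := by
        by_contra hh
        push Not at hh
        exact c1 (mem_filter.mpr ⟨hy1, hh⟩)
      have d2 : (tau p t T k ((T ^ k)⁻¹ y) : ℝ) ≤ (p : ℝ) ^ k * η ^ (2 * k) := by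
        by_contra hh
        push Not at hh
        exact c2 (mem_filter.mpr ⟨hy1, hh⟩)
      have d3 : N * η ^ k ≤ ((|y| : ℤ) : ℝ) := by
        by_contra hh
        push Not at hh
        exact c3 (mem_filter.mpr ⟨hy1, hh⟩)
      have d4 : 2 * (U * (p : ℝ) ^ k) ≤ ((|y| : ℤ) : ℝ) := by
        refine le_trans ?_ d3
        have h1 := hk0' k hkk0
        have e : (p : ℝ) ^ (2 * k) = (p : ℝ) ^ k * (p : ℝ) ^ k := by rw [two_mul, pow_add]
        have hpk : (0 : ℝ) < (p : ℝ) ^ k := pow_pos hpp k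
        rw [mul_pow] at h1
        calc 2 * (U * (p : ℝ) ^ k) = (p : ℝ) ^ k * (2 * U) := by ring
          _ ≤ (p : ℝ) ^ k * ((p : ℝ) ^ k * η ^ k) := mul_le_mul_of_nonneg_left h1 hpk.le
          _ = (p : ℝ) ^ (2 * k) * η ^ k := by rw [e]; ring
          _ ≤ N * η ^ k := mul_le_mul_of_nonneg_right hkup' hηk.le
      have hUp : 0 ≤ U * (p : ℝ) ^ k := by positivity
      have d5 : U * (p : ℝ) ^ k ≤ ((|y| : ℤ) : ℝ) := by linarith
      have f1 := fwd h η hη0 k y d1 d5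
      have f2 := bwd h η hη0 hη1.le k y d2
      have hbig : (N : ℝ) ^ (1 + c / 2) < (((|y| : ℤ) : ℝ) - U * (p : ℝ) ^ k) / η ^ (2 * k) := by
        have h4 := hN1 N hNN1
        have hNpos : (0 : ℝ) < N := by linarith
        rw [lt_div_iff₀ (by positivity)]
        have h5 : N * η ^ k / 2 ≤ ((|y| : ℤ) : ℝ) - U * (p : ℝ) ^ k := by linarith
        refine lt_of_lt_of_le ?_ h5
        have e : η ^ (2 * k) = η ^ k * η ^ k := by rw [two_mul, pow_add]
        rw [e, Real.rpow_add hNpos, Real.rpow_one]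
        -- N * N^(c/2) * (η^k η^k) < N η^k / 2
        have h6 : (N : ℝ) ^ (c / 2) * η ^ k < 1 / 2 := by
          have h7 : (N : ℝ) ^ (c / 2) * η ^ k ≤ (N : ℝ) ^ (c / 2) * (2 * (N : ℝ) ^ (-c)) :=
            mul_le_mul_of_nonneg_left hηN (by positivity)
          have h8 : (N : ℝ) ^ (c / 2) * (2 * (N : ℝ) ^ (-c)) = 2 * (N : ℝ) ^ (-(c / 2)) := by
            have : (N : ℝ) ^ (c / 2) * (N : ℝ) ^ (-c) = (N : ℝ) ^ (-(c / 2)) := by
              rw [← Real.rpow_add hNpos]; congr 1; ring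
            rw [← this]; ring
          have h9 : (N : ℝ) ^ (-(c / 2)) < 1 / 4 := by
            rw [Real.rpow_neg hNpos.le, ← one_div]
            exact one_div_lt_one_div_of_lt (by norm_num) h4
          linarith
        have h10 : 0 < (N : ℝ) * η ^ k := by positivity
        calc (N : ℝ) * (N : ℝ) ^ (c / 2) * (η ^ k * η ^ k)
            = (N : ℝ) * η ^ k * ((N : ℝ) ^ (c / 2) * η ^ k) := by ring
          _ < (N : ℝ) * η ^ k * (1 / 2) := mul_lt_mul_of_pos_left h6 h10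
          _ = N * η ^ k / 2 := by ring
      exact ⟨hbig.trans_le f1, hbig.trans_le f2⟩
    have hcard : ((Ex T (c / 2) k N).card : ℝ) ≤ (((2 * N + 1 + (p : ℝ) ^ k) * η ^ k)
        + ((2 * N + 1) * η ^ k + (p : ℝ) ^ k)) + (2 * (N * η ^ k) + 1) := by
      have h1 : ((Ex T (c / 2) k N).card : ℝ) ≤ ((B1 p t T η k N).card + (B2 p t T η k N).card)
        + (({y ∈ Icc (-(N : ℤ)) N | ((|y| : ℤ) : ℝ) < N * η ^ k}.card : ℕ) : ℝ) := by
        have h2 := (card_le_card hcov).trans ((card_union_le _ _).trans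
          (Nat.add_le_add_right (card_union_le _ _) _))
        exact_mod_cast h2
      have h3 := card_B1 h η hη0 hsη k N
      have h4 := card_B2 h η hη0 hsη k N
      have h5 := card_small N (N * η ^ k) (by positivity)
      linarith
    have htot : ((Ex T (c / 2) k N).card : ℝ) ≤ 11 * (N * η ^ k) := by
      have a1 : η ^ k ≤ N * η ^ k := by nlinarith
      have a2 : (p : ℝ) ^ k * η ^ k ≤ N * η ^ k := by nlinarith
      linarith
    have hNpos : (0 : ℝ) < N := by linarith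
    have h22 : 11 * (N * η ^ k) ≤ 22 * (N : ℝ) ^ (1 - c) := by
      have e : (N : ℝ) ^ (1 - c) = N * (N : ℝ) ^ (-c) := by
        rw [sub_eq_add_neg, Real.rpow_add hNpos, Real.rpow_one]
      rw [e]
      have := mul_le_mul_of_nonneg_left hηN hNpos.le
      linarith
    have h6 : (0 : ℝ) ≤ 3 * N0 := by positivity
    have h7 : 0 ≤ (N : ℝ) ^ (1 - c) := by positivity
    nlinarith

end

/-! ### Consequences for orbits -/

/-- An infinite orbit visits each of its points once. -/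
theorem inj_of_infinite (T : Equiv.Perm ℤ) (x : ℤ) (hx : (orbit T x).Infinite) :
    Function.Injective (fun i : ℤ => (T ^ i) x) := by
  intro i j hij
  by_contra hne
  apply hx
  -- some positive `d` with `T^d x = x`
  obtain ⟨d, hd0, hd⟩ : ∃ d : ℤ, 0 < d ∧ (T ^ d) x = x := by
    simp only at hij
    rcases lt_or_gt_of_ne hne with hlt | hgt
    · refine ⟨j - i, by omega, ?_⟩
      have e : T ^ (j - i) = (T ^ i)⁻¹ * T ^ j := by
        rw [sub_eq_neg_add, zpow_add, zpow_neg]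
      rw [e, Equiv.Perm.mul_apply, ← hij]
      simp
    · refine ⟨i - j, by omega, ?_⟩
      have e : T ^ (i - j) = (T ^ j)⁻¹ * T ^ i := by
        rw [sub_eq_neg_add, zpow_add, zpow_neg]
      rw [e, Equiv.Perm.mul_apply, hij]
      simp
  have hfix : ∀ m : ℤ, ((T ^ d) ^ m) x = x := fun m => by
    exact Equiv.Perm.zpow_apply_eq_self_of_apply_eq_self hd m
  refine ((Set.finite_Ico (0 : ℤ) d).image (fun i : ℤ => (T ^ i) x)).subset ?_
  rintro y ⟨m, rfl⟩
  refine ⟨m % d, ⟨Int.emod_nonneg _ hd0.ne', Int.emod_lt_of_pos _ hd0⟩, ?_⟩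
  simp only
  have e : T ^ m = T ^ (m % d) * (T ^ d) ^ (m / d) := by
    rw [← zpow_mul, ← zpow_add, Int.emod_add_mul_ediv]
  rw [e, Equiv.Perm.mul_apply, hfix]

theorem log_bd (p N : ℕ) (hp : 1 < p) (hN : 1 ≤ N) :
    ((Nat.log p N / 2 : ℕ) : ℝ) ≤ Real.log N := by
  set k := Nat.log p N / 2 with hk
  have h1 : p ^ (2 * k) ≤ N :=
    (Nat.pow_le_pow_right (by omega) (by omega)).trans (Nat.pow_log_le_self p (by omega))
  have h2 : (2 : ℝ) ^ (2 * k) ≤ N := by
    have h3 : 2 ^ (2 * k) ≤ p ^ (2 * k) := Nat.pow_le_pow_left hp _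
    exact_mod_cast h3.trans h1
  have h4 := Real.log_le_log (by positivity) h2
  rw [Real.log_pow] at h4
  push_cast at h4
  have h5 := Real.log_two_gt_d9
  have hk0 : (0 : ℝ) ≤ k := by positivity
  nlinarith

end Pool.Agent.H72.VPerm
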